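import Mathlib
import Pool.Agent.H34.L.TH161.KS.Defs

/-! Exponential tails of log-concave laws (project KS). -/

set_option autoImplicit false

open Finset Filter Topology
open scoped Classical

namespace Pool.Agent.TH959.KS_TAIL

open Pool.Agent.TH161.LW Pool.Agent.TH161.KS

lemma logConc_neg {Ω : Type*} {s : Finset Ω} {D : Ω → ℤ} (h : LogConc s D) :
    LogConc s (fun ω => - D ω) := by
  intro k l j hj hjl
  have := h (-l) (-k) j hj (by linarith)
  have e1 : ∀ a : ℤ, (s.filter fun ω => - D ω = a) = s.filter fun ω => D ω = -a := by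
    intro a
    apply Finset.filter_congr
    intro ω _
    constructor <;> intro h <;> linarith
  rw [e1, e1, e1, e1]
  have e2 : -(k + j) = -k - j := by ring
  have e3 : -(l - j) = -l + j := by ring
  rw [e2, e3, mul_comm, mul_comm ((s.filter fun ω => D ω = -k - j).card)]
  exact this

lemma card_sum {Ω : Type*} (s : Finset Ω) (D : Ω → ℤ) (T : Finset ℤ) :
    (s.filter fun ω => D ω ∈ T).card = ∑ k ∈ T, (s.filter fun ω => D ω = k).card := by
  rw [Finset.card_eq_sum_card_fiberwise (f := D) (t := T)]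
  · refine Finset.sum_congr rfl fun k hk => ?_
    congr 1
    ext ω
    simp only [Finset.mem_filter]
    constructor
    · rintro ⟨⟨h1, _⟩, h2⟩
      exact ⟨h1, h2⟩
    · rintro ⟨h1, h2⟩
      exact ⟨⟨h1, by rw [h2]; exact hk⟩, h2⟩
  · intro ω hω
    simp only [Finset.coe_filter, Set.mem_ofPred_eq] at hω
    exact hω.2

lemma step {Ω : Type*} {s : Finset Ω} {D : Ω → ℤ} (h : LogConc s D) (c : ℤ) (b : ℕ)
    (h7 : 7 * (s.filter fun ω => c + b ≤ D ω).card ≤ (s.filter fun ω => c ≤ D ω ∧ D ω < c + b).card)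
    (i : ℕ) : 7 * (s.filter fun ω => c + ((i : ℤ) + 2) * b ≤ D ω).card ≤
      (s.filter fun ω => c + ((i : ℤ) + 1) * b ≤ D ω).card := by
  -- an upper bound for the values
  obtain ⟨B, hB⟩ : ∃ B : ℤ, ∀ ω ∈ s, D ω < B := by
    obtain ⟨B, hB⟩ := (s.image D).bddAbove
    refine ⟨B + 1, fun ω hω => ?_⟩
    have := hB (Finset.mem_coe.2 (Finset.mem_image_of_mem D hω))
    linarith
  have hA : (s.filter fun ω => c ≤ D ω ∧ D ω < c + b).card =
      ∑ k ∈ Ico c (c + b), (s.filter fun ω => D ω = k).card := by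
    rw [← card_sum]
    congr 1
    apply Finset.filter_congr
    intro ω _
    rw [Finset.mem_Ico]
  have hT : (s.filter fun ω => c + ((i : ℤ) + 2) * b ≤ D ω).card =
      ∑ l ∈ Ico (c + ((i : ℤ) + 2) * b) B, (s.filter fun ω => D ω = l).card := by
    rw [← card_sum]
    congr 1
    apply Finset.filter_congr
    intro ω hω
    rw [Finset.mem_Ico]
    exact ⟨fun h => ⟨h, hB ω hω⟩, fun h => h.1⟩
  have hA1 : ∑ k ∈ Ico c (c + b), (s.filter fun ω => D ω = k + b).card ≤
      (s.filter fun ω => c + b ≤ D ω).card := by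
    have : ∑ k ∈ Ico c (c + b), (s.filter fun ω => D ω = k + b).card =
        (s.filter fun ω => D ω ∈ Ico (c + b) (c + b + b)).card := by
      rw [card_sum]
      refine Finset.sum_bij (fun k _ => k + b) ?_ ?_ ?_ ?_
      · intro k hk
        rw [Finset.mem_Ico] at hk ⊢
        constructor <;> linarith [hk.1, hk.2]
      · intro k _ k' _ hkk
        linarith
      · intro k hk
        rw [Finset.mem_Ico] at hk
        exact ⟨k - b, by rw [Finset.mem_Ico]; constructor <;> linarith [hk.1, hk.2], by ring⟩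
      · intro k _
        rfl
    rw [this]
    apply Finset.card_le_card
    intro ω hω
    rw [Finset.mem_filter, Finset.mem_Ico] at hω
    rw [Finset.mem_filter]
    exact ⟨hω.1, hω.2.1⟩
  have hT1 : ∑ l ∈ Ico (c + ((i : ℤ) + 2) * b) B, (s.filter fun ω => D ω = l - b).card ≤
      (s.filter fun ω => c + ((i : ℤ) + 1) * b ≤ D ω).card := by
    have : ∑ l ∈ Ico (c + ((i : ℤ) + 2) * b) B, (s.filter fun ω => D ω = l - b).card =
        (s.filter fun ω => D ω ∈ Ico (c + ((i : ℤ) + 1) * b) (B - b)).card := by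
      rw [card_sum]
      refine Finset.sum_bij (fun k _ => k - b) ?_ ?_ ?_ ?_
      · intro k hk
        rw [Finset.mem_Ico] at hk ⊢
        constructor <;> nlinarith [hk.1, hk.2]
      · intro k _ k' _ hkk
        linarith
      · intro k hk
        rw [Finset.mem_Ico] at hk
        exact ⟨k + b, by rw [Finset.mem_Ico]; constructor <;> nlinarith [hk.1, hk.2], by ring⟩
      · intro k _
        rfl
    rw [this]
    apply Finset.card_le_card
    intro ω hω
    rw [Finset.mem_filter, Finset.mem_Ico] at hω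
    rw [Finset.mem_filter]
    exact ⟨hω.1, hω.2.1⟩
  have hmain : (s.filter fun ω => c ≤ D ω ∧ D ω < c + b).card *
      (s.filter fun ω => c + ((i : ℤ) + 2) * b ≤ D ω).card ≤
      (s.filter fun ω => c + b ≤ D ω).card * (s.filter fun ω => c + ((i : ℤ) + 1) * b ≤ D ω).card := by
    rw [hA, hT, Finset.sum_mul_sum]
    refine le_trans ?_ (Nat.mul_le_mul hA1 hT1)
    rw [Finset.sum_mul_sum]
    refine Finset.sum_le_sum fun k hk => Finset.sum_le_sum fun l hl => ?_
    rw [Finset.mem_Ico] at hk hl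
    have hib : (0 : ℤ) ≤ (i : ℤ) * b := by positivity
    exact h k l b (by positivity) (by nlinarith [hk.1, hk.2, hl.1, hl.2])
  rcases Nat.eq_zero_or_pos (s.filter fun ω => c ≤ D ω ∧ D ω < c + b).card with h0 | hpos
  · -- no mass at all
    have h1 : (s.filter fun ω => c + b ≤ D ω).card = 0 := by omega
    have h2 : (s.filter fun ω => c + ((i : ℤ) + 2) * b ≤ D ω).card ≤ (s.filter fun ω => c + b ≤ D ω).card := by
      apply Finset.card_le_card
      intro ω hω
      rw [Finset.mem_filter] at hω ⊢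
      have hib : (0 : ℤ) ≤ (i : ℤ) * b := by positivity
      have hb0 : (0 : ℤ) ≤ (b : ℤ) := by positivity
      exact ⟨hω.1, by nlinarith [hω.2]⟩
    omega
  · set A := (s.filter fun ω => c ≤ D ω ∧ D ω < c + b).card with hAdef
    set A1 := (s.filter fun ω => c + b ≤ D ω).card with hA1def
    set T2 := (s.filter fun ω => c + ((i : ℤ) + 2) * b ≤ D ω).card with hT2def
    set T1 := (s.filter fun ω => c + ((i : ℤ) + 1) * b ≤ D ω).card with hT1def
    have h1 : A * (7 * T2) ≤ A * T1 := by
      calc A * (7 * T2) = 7 * (A * T2) := by ring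
        _ ≤ 7 * (A1 * T1) := Nat.mul_le_mul_left 7 hmain
        _ = (7 * A1) * T1 := by ring
        _ ≤ A * T1 := Nat.mul_le_mul_right T1 h7
    exact Nat.le_of_mul_le_mul_left h1 hpos

lemma tail1 {Ω : Type*} {s : Finset Ω} {D : Ω → ℤ} (h : LogConc s D) (c : ℤ) (b : ℕ)
    (h7 : 7 * (s.filter fun ω => c + b ≤ D ω).card ≤ (s.filter fun ω => c ≤ D ω ∧ D ω < c + b).card)
    (i : ℕ) : 7 ^ i * (s.filter fun ω => c + ((i : ℤ) + 1) * b ≤ D ω).card ≤
      (s.filter fun ω => c + b ≤ D ω).card := by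
  induction i with
  | zero => simp
  | succ i ih =>
    refine le_trans ?_ ih
    have := step h c b h7 i
    rw [pow_succ, mul_assoc]
    refine Nat.mul_le_mul_left _ ?_
    push_cast
    have e : (i : ℤ) + 1 + 1 = i + 2 := by ring
    rw [e]
    exact this

theorem t_TAIL : P_TAIL := by
  intro Ω s D hL m S r hS hsum
  have hcard0 : (0 : ℝ) ≤ s.card := by positivity
  have hfl : ((s.filter fun ω => r ≤ |(D ω : ℝ) - m|).card : ℝ) ≤ s.card := by
    exact_mod_cast Finset.card_filter_le _ _
  have hS1 : 0 < S + 1 := by linarith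
  by_cases hr : r ≤ 9 * (S + 1)
  · -- trivial range
    refine hfl.trans ?_
    have h1 : r / (9 * (S + 1)) ≤ 1 := by
      rw [div_le_one (by positivity)]
      exact hr
    have h2 : Real.exp (-1) ≤ Real.exp (-(r / (9 * (S + 1)))) := by
      apply Real.exp_le_exp.2
      linarith
    have h3 : (1 : ℝ) ≤ 17 * Real.exp (-1) := by
      rw [Real.exp_neg]
      have := Real.exp_one_lt_d9
      have h4 := Real.exp_pos 1
      rw [← div_eq_mul_inv, le_div_iff₀ h4]
      linarith
    nlinarith
  push Not at hr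
  -- the block length
  set b : ℕ := ⌈16 * (S + 1)⌉₊ with hb
  have hb1 : 16 * (S + 1) ≤ b := Nat.le_ceil _
  have hb2 : (b : ℝ) ≤ 17 * (S + 1) := by
    have := Nat.ceil_lt_add_one (a := 16 * (S + 1)) (by positivity)
    have h2 : (b : ℝ) < 16 * (S + 1) + 1 := this
    linarith
  have hbpos : (0 : ℝ) < b := by linarith
  set c : ℤ := ⌈m - b / 2⌉ with hc
  have hc1 : m - b / 2 ≤ c := Int.le_ceil _
  have hc2 : (c : ℝ) < m - b / 2 + 1 := Int.ceil_lt_add_one _
  -- the Markov inequality
  have hfar : 8 * (S + 1) * (((s.filter fun ω => c + b ≤ D ω).card : ℝ) +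
      (s.filter fun ω => D ω < c).card) ≤ S * s.card := by
    refine le_trans ?_ hsum
    have hdisj : Disjoint (s.filter fun ω => c + b ≤ D ω) (s.filter fun ω => D ω < c) := by
      rw [Finset.disjoint_filter]
      intro ω _ h1 h2
      have : (0 : ℤ) ≤ b := by positivity
      linarith
    have hsub : (s.filter fun ω => c + b ≤ D ω) ∪ (s.filter fun ω => D ω < c) ⊆ s :=
      Finset.union_subset (Finset.filter_subset _ _) (Finset.filter_subset _ _)
    rw [← Nat.cast_add, ← Finset.card_union_of_disjoint hdisj]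
    calc 8 * (S + 1) * (((s.filter fun ω => c + b ≤ D ω) ∪ (s.filter fun ω => D ω < c)).card : ℝ)
        = ∑ ω ∈ (s.filter fun ω => c + b ≤ D ω) ∪ (s.filter fun ω => D ω < c), 8 * (S + 1) := by
          rw [Finset.sum_const, nsmul_eq_mul]; ring
      _ ≤ ∑ ω ∈ (s.filter fun ω => c + b ≤ D ω) ∪ (s.filter fun ω => D ω < c), |(D ω : ℝ) - m| := by
          refine Finset.sum_le_sum fun ω hω => ?_
          rw [Finset.mem_union, Finset.mem_filter, Finset.mem_filter] at hω
          rcases hω with hω | hω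
          · have h1 : (c : ℝ) + b ≤ D ω := by exact_mod_cast hω.2
            refine le_trans ?_ (le_abs_self _)
            linarith
          · have h1 : (D ω : ℝ) + 1 ≤ c := by exact_mod_cast hω.2
            refine le_trans ?_ (neg_le_abs _)
            linarith
      _ ≤ ∑ ω ∈ s, |(D ω : ℝ) - m| :=
          Finset.sum_le_sum_of_subset_of_nonneg hsub fun _ _ _ => abs_nonneg _
  set T := (s.filter fun ω => c + b ≤ D ω).card with hT
  set T' := (s.filter fun ω => D ω < c).card with hT'
  have h8 : 8 * ((T : ℝ) + T') ≤ s.card := by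
    have h1 : (0 : ℝ) ≤ (T : ℝ) + T' := by positivity
    have h2 : (S + 1) * (8 * ((T : ℝ) + T')) ≤ (S + 1) * s.card := by nlinarith
    exact le_of_mul_le_mul_left h2 hS1
  have h8' : 8 * (T + T') ≤ s.card := by exact_mod_cast h8
  have hpart : s.card = (s.filter fun ω => c ≤ D ω ∧ D ω < c + b).card + T + T' := by
    have h1 := Finset.card_filter_add_card_filter_not (s := s) (fun ω => D ω < c)
    have h2 := Finset.card_filter_add_card_filter_not (s := s.filter fun ω => ¬ D ω < c)
      (fun ω => c + b ≤ D ω)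
    rw [Finset.filter_filter, Finset.filter_filter] at h2
    have e1 : (s.filter fun ω => ¬ D ω < c ∧ c + b ≤ D ω) = s.filter fun ω => c + b ≤ D ω := by
      apply Finset.filter_congr
      intro ω _
      have : (0 : ℤ) ≤ b := by positivity
      constructor
      · exact fun h => h.2
      · exact fun h => ⟨by linarith, h⟩
    have e2 : (s.filter fun ω => ¬ D ω < c ∧ ¬ c + b ≤ D ω) =
        s.filter fun ω => c ≤ D ω ∧ D ω < c + b := by
      apply Finset.filter_congr
      intro ω _
      rw [not_lt, not_le]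
    rw [e1, e2] at h2
    omega
  have h7 : 7 * (s.filter fun ω => c + b ≤ D ω).card ≤
      (s.filter fun ω => c ≤ D ω ∧ D ω < c + b).card := by
    rw [← hT]
    omega
  have e3 : ∀ n : ℕ, (1 - c - b : ℤ) + ((n : ℤ) + 1) * b = 1 - c + n * b := by
    intro n
    ring
  have hT'2 : (s.filter fun ω => (1 - c - b : ℤ) + b ≤ - D ω).card = T' := by
    rw [hT']
    congr 1
    apply Finset.filter_congr
    intro ω _
    constructor <;> intro h <;> omega
  have h7' : 7 * (s.filter fun ω => (1 - c - b : ℤ) + b ≤ - D ω).card ≤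
      (s.filter fun ω => (1 - c - b : ℤ) ≤ - D ω ∧ - D ω < (1 - c - b : ℤ) + b).card := by
    have e4 : (s.filter fun ω => (1 - c - b : ℤ) ≤ - D ω ∧ - D ω < (1 - c - b : ℤ) + b) =
        s.filter fun ω => c ≤ D ω ∧ D ω < c + b := by
      apply Finset.filter_congr
      intro ω _
      constructor <;> rintro ⟨h1, h2⟩ <;> constructor <;> omega
    rw [e4, hT'2]
    omega
  -- the number of the block
  obtain ⟨j, hj1, hj2⟩ : ∃ j : ℕ, r / b - 3 / 2 ≤ j ∧ ((j : ℝ) + 1) * b < r + b / 2 := by
    have hx : 0 < r / b - 1 / 2 := by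
      have : 1 / 2 < r / b := by
        rw [lt_div_iff₀ hbpos]
        linarith
      linarith
    have h1 := Nat.le_ceil (r / b - 1 / 2)
    have h2 := Nat.ceil_lt_add_one hx.le
    have h3 : 0 < ⌈r / b - 1 / 2⌉₊ := Nat.ceil_pos.2 hx
    obtain ⟨j, hj⟩ := Nat.exists_eq_succ_of_ne_zero h3.ne'
    rw [hj] at h1 h2
    push_cast at h1 h2
    refine ⟨j, by linarith, ?_⟩
    have h4 : (j : ℝ) + 1 < r / b + 1 / 2 := by linarith
    have h5 := mul_lt_mul_of_pos_right h4 hbpos
    have h6 : (r / b + 1 / 2) * b = r + b / 2 := by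
      field_simp
    linarith
  have ht1 := tail1 hL c b h7 j
  have ht2 := tail1 (logConc_neg hL) (1 - c - b) b h7' j
  rw [hT'2] at ht2
  have hcover : (s.filter fun ω => r ≤ |(D ω : ℝ) - m|).card ≤
      (s.filter fun ω => c + ((j : ℤ) + 1) * b ≤ D ω).card +
      (s.filter fun ω => (1 - c - b : ℤ) + ((j : ℤ) + 1) * b ≤ - D ω).card := by
    refine le_trans (Finset.card_le_card ?_) (Finset.card_union_le _ _)
    intro ω hω
    rw [Finset.mem_filter] at hω
    rw [Finset.mem_union, Finset.mem_filter, Finset.mem_filter]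
    obtain ⟨hωs, hω⟩ := hω
    rcases le_abs.1 hω with h | h
    · left
      refine ⟨hωs, ?_⟩
      have h1 : (((c + ((j : ℤ) + 1) * b : ℤ) : ℝ)) < ((D ω + 1 : ℤ) : ℝ) := by
        push_cast
        linarith
      have h2 : c + ((j : ℤ) + 1) * b < D ω + 1 := by exact_mod_cast h1
      linarith
    · right
      refine ⟨hωs, ?_⟩
      have h1 : (((- c - b + ((j : ℤ) + 1) * b : ℤ) : ℝ)) < ((- D ω : ℤ) : ℝ) := by
        push_cast
        linarith
      have h2 : - c - b + ((j : ℤ) + 1) * b < - D ω := by exact_mod_cast h1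
      linarith
  have hfin : 7 ^ j * (s.filter fun ω => r ≤ |(D ω : ℝ) - m|).card ≤ T + T' := by
    calc 7 ^ j * (s.filter fun ω => r ≤ |(D ω : ℝ) - m|).card ≤ 7 ^ j * _ :=
          Nat.mul_le_mul_left _ hcover
      _ ≤ T + T' := by
          rw [mul_add]
          exact Nat.add_le_add ht1 ht2
  have hfin' : (7 : ℝ) ^ j * (s.filter fun ω => r ≤ |(D ω : ℝ) - m|).card ≤ (T : ℝ) + T' := by
    exact_mod_cast hfin
  -- the numbers
  have hexp7 : Real.exp (17 / 9) ≤ 7 := by
    have h1 : Real.exp (17 / 9) = Real.exp 1 ^ 2 / Real.exp (1 / 9) := by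
      rw [← Real.exp_nat_mul, ← Real.exp_sub]
      norm_num
    have h2 : (10 / 9 : ℝ) ≤ Real.exp (1 / 9) := by
      have := Real.add_one_le_exp (1 / 9 : ℝ)
      linarith
    have h3 := Real.exp_one_lt_d9
    have h4 := Real.exp_pos 1
    rw [h1, div_le_iff₀ (by positivity)]
    nlinarith
  have hpow : Real.exp ((17 / 9) * j) ≤ 7 ^ j := by
    rw [mul_comm, Real.exp_nat_mul]
    exact pow_le_pow_left₀ (Real.exp_pos _).le hexp7 j
  have hexp3 : Real.exp (17 / 6) ≤ 136 := by
    have h1 : Real.exp (17 / 6) ≤ Real.exp 3 := Real.exp_le_exp.2 (by norm_num)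
    have h2 : Real.exp 3 = Real.exp 1 ^ 3 := by
      rw [← Real.exp_nat_mul]
      norm_num
    have h3 := Real.exp_one_lt_d9
    have h4 := Real.exp_pos 1
    have h5 : Real.exp 1 ^ 3 ≤ 2.7182818286 ^ 3 := pow_le_pow_left₀ h4.le h3.le 3
    rw [h2] at h1
    refine h1.trans (h5.trans ?_)
    norm_num
  have hrb : r / (9 * (S + 1)) ≤ (17 / 9) * (r / b) := by
    have hr0 : 0 ≤ r := by
      have : 0 < 9 * (S + 1) := by positivity
      linarith
    rw [mul_div_assoc', div_le_div_iff₀ (by positivity) hbpos]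
    nlinarith
  have hkey : Real.exp (r / (9 * (S + 1))) ≤ 136 * 7 ^ j := by
    calc Real.exp (r / (9 * (S + 1))) ≤ Real.exp (17 / 6 + (17 / 9) * j) := by
          apply Real.exp_le_exp.2
          linarith
      _ = Real.exp (17 / 6) * Real.exp ((17 / 9) * j) := Real.exp_add _ _
      _ ≤ 136 * 7 ^ j := by
          refine mul_le_mul hexp3 hpow (Real.exp_pos _).le (by norm_num)
  have h7j : (0 : ℝ) < 7 ^ j := by positivity
  set N : ℝ := ((s.filter fun ω => r ≤ |(D ω : ℝ) - m|).card : ℝ) with hN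
  have hN0 : 0 ≤ N := by positivity
  rw [Real.exp_neg, ← div_eq_mul_inv, div_mul_eq_mul_div, le_div_iff₀ (Real.exp_pos _)]
  calc N * Real.exp (r / (9 * (S + 1))) ≤ N * (136 * 7 ^ j) := mul_le_mul_of_nonneg_left hkey hN0
    _ = 136 * (7 ^ j * N) := by ring
    _ ≤ 136 * ((T : ℝ) + T') := by linarith
    _ ≤ 17 * s.card := by linarith

end Pool.Agent.TH959.KS_TAIL
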